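import Pool.Agent.Helper21.DN.Stmts

/-!
Data for the Heisenberg groups.
-/

set_option autoImplicit false

namespace Pool.Agent.Helper21.DN

universe u

section algebraic

variable {F : Type} [Field F]

theorem hei_mul_mk (a b c a' b' c' : F) :
    (⟨a, b, c⟩ * ⟨a', b', c'⟩ : Heis F) = ⟨a + a', b + b', c + c' + a * b'⟩ := rfl

theorem hei_conj (x : Heis F) (b c : F) :
    x * ⟨0, b, c⟩ * x⁻¹ = ⟨0, b, c + x.a * b⟩ := by
  simp only [heis_mul, heis_inv, Heis.mk.injEq]
  refine ⟨by ring, by ring, by ring⟩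

/-- the triples as a product -/
def hei_equiv (F : Type) : Heis F ≃ F × F × F where
  toFun x := (x.a, x.b, x.c)
  invFun y := ⟨y.1, y.2.1, y.2.2⟩
  left_inv _ := rfl
  right_inv _ := rfl

theorem hei_card [Finite F] : Nat.card (Heis F) = Nat.card F ^ 3 := by
  rw [Nat.card_congr (hei_equiv F), Nat.card_prod, Nat.card_prod]
  ring

/-- the subgroup of the triples with first entry zero -/
def hei_H (F : Type) [Field F] : Subgroup (Heis F) where
  carrier := {x | x.a = 0}
  mul_mem' := by
    intro x y hx hy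
    simp only [Set.mem_setOf_eq, heis_mul] at *
    rw [hx, hy, add_zero]
  one_mem' := rfl
  inv_mem' := by
    intro x hx
    simp only [Set.mem_setOf_eq, heis_inv] at *
    rw [hx, neg_zero]

theorem hei_H_mem (x : Heis F) : x ∈ hei_H F ↔ x.a = 0 := Iff.rfl

theorem hei_H_comm : ⁅hei_H F, hei_H F⁆ = ⊥ := by
  rw [Subgroup.commutator_eq_bot_iff_le_centralizer]
  intro x hx
  rw [Subgroup.mem_centralizer_iff]
  intro y hy
  have hx' : x.a = 0 := hx
  have hy' : y.a = 0 := hy
  simp only [heis_mul, hx', hy', Heis.mk.injEq]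
  refine ⟨trivial, by ring, by ring⟩

theorem hei_H_index [Finite F] : (hei_H F).index = Nat.card F := by
  have h1 : Nat.card (hei_H F) = Nat.card F ^ 2 := by
    have e : (hei_H F) ≃ F × F :=
      { toFun := fun x => (x.1.b, x.1.c)
        invFun := fun y => ⟨⟨0, y.1, y.2⟩, rfl⟩
        left_inv := by
          rintro ⟨⟨a, b, c⟩, h⟩
          have h' : a = 0 := h
          subst h'
          rfl
        right_inv := fun _ => rfl }
    rw [Nat.card_congr e, Nat.card_prod]
    ring
  have h2 := (hei_H F).card_mul_index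
  rw [h1, hei_card] at h2
  have h0 : 0 < Nat.card F := Nat.card_pos
  have h3 : Nat.card F ^ 2 * (hei_H F).index = Nat.card F ^ 2 * Nat.card F := by
    rw [h2]; ring
  exact Nat.eq_of_mul_eq_mul_left (by positivity) h3

/-- the central element -/
def hei_z (F : Type) [Field F] : Heis F := ⟨0, 0, 1⟩

theorem hei_z_center : hei_z F ∈ Subgroup.center (Heis F) := by
  rw [Subgroup.mem_center_iff]
  intro g
  simp only [heis_mul, hei_z, Heis.mk.injEq]
  refine ⟨by ring, by ring, by ring⟩

theorem hei_z_pow (n : ℕ) : hei_z F ^ n = ⟨0, 0, (n : F)⟩ := by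
  induction n with
  | zero => simp [heis_one]
  | succ n ih =>
    rw [pow_succ, ih]
    simp only [heis_mul, hei_z, Heis.mk.injEq]
    refine ⟨by ring, by ring, by push_cast; ring⟩

theorem hei_z_order (p : ℕ) [CharP F p] [Fact p.Prime] : orderOf (hei_z F) = p := by
  apply orderOf_eq_prime
  · rw [hei_z_pow, CharP.cast_eq_zero, heis_one]
  · intro h
    have : (hei_z F).c = (1 : Heis F).c := by rw [h]
    simp [hei_z, heis_one] at this

end algebraic

theorem hei_MP (p : ℕ) [Fact p.Prime] (F : Type) [Field F] [Finite F] [CharP F p]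
    (hpg : IsPGroup p (Heis F)) (g : ℕ) (hg : Nat.card F = p ^ g) :
    MP p (Heis F) ∣ Nat.card F := by
  have hp : p.Prime := Fact.out
  haveI : Finite (Heis F) := Finite.of_equiv _ (hei_equiv F).symm
  have key : ∀ z : Heis F, orderOf z = p → minIndex z ≤ p ^ g ∧ ∃ i, minIndex z = p ^ i := by
    intro z hz
    have hz1 : z ≠ 1 := by
      intro h
      rw [h, orderOf_one] at hz
      exact hp.one_lt.ne hz
    have hmem : Nat.card F ∈ {m | ∃ H : Subgroup (Heis F), z ∉ ⁅H, H⁆ ∧ m = H.index} := by
      refine ⟨hei_H F, ?_, hei_H_index.symm⟩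
      rw [hei_H_comm, Subgroup.mem_bot]
      exact hz1
    refine ⟨?_, ?_⟩
    · rw [← hg]
      exact Nat.sInf_le hmem
    · obtain ⟨H, -, hH⟩ := Nat.sInf_mem ⟨_, hmem⟩
      obtain ⟨i, hi⟩ := hpg.index H
      exact ⟨i, by rw [minIndex, hH, hi]⟩
  have hbd : BddAbove {m | ∃ z : Heis F, z ∈ Subgroup.center (Heis F) ∧ orderOf z = p ∧
      m = minIndex z} := by
    refine ⟨p ^ g, ?_⟩
    rintro m ⟨z, -, hz, rfl⟩
    exact (key z hz).1
  have hne : {m | ∃ z : Heis F, z ∈ Subgroup.center (Heis F) ∧ orderOf z = p ∧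
      m = minIndex z}.Nonempty := ⟨_, hei_z F, hei_z_center, hei_z_order p, rfl⟩
  obtain ⟨z, -, hz, hm⟩ := Nat.sSup_mem hne hbd
  obtain ⟨h1, i, hi⟩ := key z hz
  rw [MP, hm, hg, hi]
  rw [hi] at h1
  exact pow_dvd_pow p ((Nat.pow_le_pow_iff_right hp.one_lt).1 h1)

section lin

variable (p : ℕ) [Fact p.Prime] {k : Type u} [Field k] [CharP k p] {F : Type} [Field F] [Finite F]
  [CharP F p]

theorem hei_cast (φ : F →+* k) [Algebra (ZMod p) F] (x : ZMod p) :
    ((x.val : ℕ) : k) = φ (algebraMap (ZMod p) F x) := by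
  have h1 : ((x.val : ℕ) : k) = ZMod.castHom (dvd_refl p) k x := by
    rw [ZMod.castHom_apply, ZMod.cast_eq_val]
  rw [h1]
  have : (ZMod.castHom (dvd_refl p) k) = φ.comp (algebraMap (ZMod p) F) := Subsingleton.elim _ _
  rw [this]
  rfl

end lin

theorem st_HEI : ST_HEI.{u} := by
  intro p hpf k _ _ _ F _ _ _
  have hp : p.Prime := Fact.out
  letI : Algebra (ZMod p) F := ZMod.algebra F p
  letI : Algebra (ZMod p) k := ZMod.algebra k p
  haveI : Fintype F := Fintype.ofFinite F
  haveI : Module.Finite (ZMod p) F := Module.Finite.of_finite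
  haveI : Algebra.IsAlgebraic (ZMod p) F := Algebra.IsAlgebraic.of_finite _ _
  let φ : F →+* k := (IsAlgClosed.lift (R := ZMod p) (S := F) (M := k)).toRingHom
  set g := Module.finrank (ZMod p) F with hgdef
  have hcard : Nat.card F = p ^ g := by
    rw [Nat.card_eq_fintype_card, Module.card_eq_pow_finrank (K := ZMod p) (V := F), ZMod.card]
  have hg1 : 1 ≤ g := Module.finrank_pos
  haveI : Finite (Heis F) := Finite.of_equiv _ (hei_equiv F).symm
  have hpg : IsPGroup p (Heis F) := by
    apply IsPGroup.of_card (n := g * 3)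
    rw [hei_card, hcard, pow_mul]
  refine ⟨hpg, ?_, hei_MP p F hpg g hcard, ?_⟩
  · refine ⟨⟨1, hei_z F, ?_⟩⟩
    intro h
    have : (hei_z F).c = (1 : Heis F).c := by rw [← h]
    simp [hei_z, heis_one] at this
  let ω : Module.Basis (Fin g) (ZMod p) F := Module.finBasis (ZMod p) F
  let ωs : Module.Basis (Fin g) (ZMod p) F := ω.traceDual
  let σ : Fin g ⊕ Fin g ≃ Fin (g + g) := finSumFinEquiv
  have hφ : Function.Injective φ := φ.injective
  -- key identity
  have hkey : ∀ (a : F) (i : Fin g), ∑ j, (Algebra.leftMulMatrix ω a i j) • ωs j = a * ωs i := by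
    intro a i
    conv_rhs => rw [← ωs.sum_repr (a * ωs i)]
    refine Finset.sum_congr rfl (fun j _ => ?_)
    congr 1
    rw [Algebra.leftMulMatrix_eq_repr_mul]
    have h1 : ω.repr (a * ω j) i = Algebra.traceForm (ZMod p) F (a * ω j) (ωs i) := by
      have := ωs.traceDual_repr_apply (a * ω j) i
      rwa [Module.Basis.traceDual_traceDual] at this
    rw [h1, Module.Basis.traceDual_repr_apply, Algebra.traceForm_apply, Algebra.traceForm_apply]
    congr 1
    ring
  have hkey' : ∀ (a : F) (i : Fin g),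
      ∑ j, (((Algebra.leftMulMatrix ω a i j).val : ℕ) : k) * φ (ωs j) = φ a * φ (ωs i) := by
    intro a i
    rw [← map_mul, ← hkey a i, map_sum]
    refine Finset.sum_congr rfl (fun j _ => ?_)
    rw [hei_cast p φ, ← map_mul, Algebra.smul_def]
  have h1v : (((1 : ZMod p).val : ℕ) : k) = 1 := by
    rw [hei_cast p φ, map_one, map_one]
  have h0v : (((0 : ZMod p).val : ℕ) : k) = 0 := by
    rw [hei_cast p φ, map_zero, map_zero]
  refine ⟨g, g + g,
    { toFun := fun u => ⟨0, ∑ i, (Multiplicative.toAdd u (σ (Sum.inl i))) • ω i,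
        ∑ i, (Multiplicative.toAdd u (σ (Sum.inr i))) • ω i⟩
      map_one' := ?_
      map_mul' := ?_ },
    fun x => Matrix.reindex σ σ (Matrix.fromBlocks 1 0 (Algebra.leftMulMatrix ω x.a) 1),
    fun i => Sum.elim (fun i => φ (ωs i)) 0 (σ.symm i),
    fun i => Sum.elim 0 (fun i => φ (ωs i)) (σ.symm i),
    fun x => φ x.a, hg1, hcard, ?_⟩
  · simp [heis_one]
  · intro u v
    simp only [heis_mul, toAdd_mul, Pi.add_apply, add_smul, Finset.sum_add_distrib,
      add_zero, zero_mul]
  constructor
  · -- injectivity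
    intro u v h
    simp only [MonoidHom.coe_mk, OneHom.coe_mk, Heis.mk.injEq] at h
    obtain ⟨-, h1, h2⟩ := h
    apply Multiplicative.toAdd.injective
    funext i
    obtain ⟨s, rfl⟩ := σ.surjective i
    have hl : ∀ f f' : Fin g → ZMod p, ∑ i, f i • ω i = ∑ i, f' i • ω i → f = f' := by
      intro f f' hff
      have := ω.linearIndependent
      rw [Fintype.linearIndependent_iff] at this
      funext i
      have h3 := this (fun i => f i - f' i) (by
        simp only [sub_smul, Finset.sum_sub_distrib, hff, sub_self]) i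
      exact sub_eq_zero.1 h3
    rcases s with s | s
    · exact congrFun (hl _ _ h1) s
    · exact congrFun (hl _ _ h2) s
  · -- conjugation
    intro x u
    simp only [MonoidHom.coe_mk, OneHom.coe_mk, toAdd_ofAdd]
    rw [hei_conj]
    have hA : ∀ s, (Matrix.reindex σ σ (Matrix.fromBlocks 1 0 (Algebra.leftMulMatrix ω x.a) 1 :
        Matrix (Fin g ⊕ Fin g) (Fin g ⊕ Fin g) (ZMod p))).mulVec
        u (σ s) = (Matrix.fromBlocks 1 0 (Algebra.leftMulMatrix ω x.a) 1 :
        Matrix (Fin g ⊕ Fin g) (Fin g ⊕ Fin g) (ZMod p)).mulVec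
        (fun t => u (σ t)) s := by
      intro s
      simp only [Matrix.mulVec, dotProduct, Matrix.reindex_apply, Matrix.submatrix_apply,
        Equiv.symm_apply_apply]
      rw [← Equiv.sum_comp σ]
      simp only [Equiv.symm_apply_apply]
    have hl : ∀ i, (Matrix.fromBlocks 1 0 (Algebra.leftMulMatrix ω x.a) 1 :
        Matrix (Fin g ⊕ Fin g) (Fin g ⊕ Fin g) (ZMod p)).mulVec
        (fun t => u (σ t)) (Sum.inl i) = u (σ (Sum.inl i)) := by
      intro i
      simp only [Matrix.mulVec, dotProduct, Fintype.sum_sum_type, Matrix.fromBlocks_apply₁₁,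
        Matrix.fromBlocks_apply₁₂, Matrix.zero_apply, zero_mul, Finset.sum_const_zero, add_zero,
        Matrix.one_apply, ite_mul, one_mul, Finset.sum_ite_eq, Finset.mem_univ, if_true]
    have hr : ∀ i, (Matrix.fromBlocks 1 0 (Algebra.leftMulMatrix ω x.a) 1 :
        Matrix (Fin g ⊕ Fin g) (Fin g ⊕ Fin g) (ZMod p)).mulVec
        (fun t => u (σ t)) (Sum.inr i) =
        ∑ j, Algebra.leftMulMatrix ω x.a i j * u (σ (Sum.inl j)) + u (σ (Sum.inr i)) := by
      intro i
      simp only [Matrix.mulVec, dotProduct, Fintype.sum_sum_type, Matrix.fromBlocks_apply₂₁,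
        Matrix.fromBlocks_apply₂₂,
        Matrix.one_apply, ite_mul, one_mul, zero_mul, Finset.sum_ite_eq, Finset.mem_univ, if_true]
    simp only [Heis.mk.injEq, hA, hl, hr, true_and, add_smul, Finset.sum_add_distrib]
    rw [add_comm]
    congr 1
    rw [Finset.mul_sum]
    have h3 : ∀ j, x.a * (u (σ (Sum.inl j)) • ω j) =
        ∑ i, (Algebra.leftMulMatrix ω x.a i j * u (σ (Sum.inl j))) • ω i := by
      intro j
      rw [mul_smul_comm, ← ω.sum_repr (x.a * ω j), Finset.smul_sum]
      refine Finset.sum_congr rfl (fun i _ => ?_)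
      rw [Algebra.leftMulMatrix_eq_repr_mul, smul_smul, mul_comm]
    simp only [h3, Finset.sum_smul]
    rw [Finset.sum_comm]
  · -- one
    simp [heis_one]
  · -- mul
    intro x y
    simp only [heis_mul, map_add]
    rw [Matrix.reindex_apply, Matrix.reindex_apply, Matrix.reindex_apply,
      Matrix.submatrix_mul_equiv, Matrix.fromBlocks_multiply]
    simp
  · -- hull
    intro ψ h1 h2
    have hli := ωs.linearIndependent
    rw [Fintype.linearIndependent_iff] at hli
    have hcomb : ∀ f : Fin g → ZMod p, ∑ i, (((f i).val : ℕ) : k) * φ (ωs i) = 0 →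
        ∀ i, f i = 0 := by
      intro f hf
      apply hli
      apply hφ
      rw [map_zero, map_sum, ← hf]
      refine Finset.sum_congr rfl (fun i _ => ?_)
      rw [hei_cast p φ, ← map_mul, Algebra.smul_def]
    rw [← Equiv.sum_comp σ] at h1 h2
    simp only [Equiv.symm_apply_apply, Fintype.sum_sum_type, Sum.elim_inl, Sum.elim_inr,
      Pi.zero_apply, mul_zero, Finset.sum_const_zero, add_zero, zero_add] at h1 h2
    funext i
    obtain ⟨s, rfl⟩ := σ.surjective i
    rcases s with s | s
    · exact hcomb (fun i => ψ (σ (Sum.inl i))) h1 s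
    · exact hcomb (fun i => ψ (σ (Sum.inr i))) h2 s
  · -- ez
    intro x i
    obtain ⟨s, rfl⟩ := σ.surjective i
    rw [← Equiv.sum_comp σ]
    simp only [Matrix.reindex_apply, Matrix.submatrix_apply, Equiv.symm_apply_apply,
      Fintype.sum_sum_type, Sum.elim_inl, Sum.elim_inr, Pi.zero_apply, mul_zero,
      Finset.sum_const_zero, add_zero]
    rcases s with s | s
    · simp only [Matrix.fromBlocks_apply₁₁, Sum.elim_inl, Pi.zero_apply, mul_zero, add_zero]
      rw [Finset.sum_eq_single s]
      · rw [Matrix.one_apply_eq, h1v, one_mul]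
      · intro j _ hj
        rw [Matrix.one_apply_ne hj.symm, h0v, zero_mul]
      · simp
    · simp only [Matrix.fromBlocks_apply₂₁, Sum.elim_inr, Pi.zero_apply, zero_add]
      exact hkey' x.a s
  · -- zz
    intro x i
    obtain ⟨s, rfl⟩ := σ.surjective i
    rw [← Equiv.sum_comp σ]
    simp only [Matrix.reindex_apply, Matrix.submatrix_apply, Equiv.symm_apply_apply,
      Fintype.sum_sum_type, Sum.elim_inl, Sum.elim_inr, Pi.zero_apply, mul_zero,
      Finset.sum_const_zero, zero_add]
    rcases s with s | s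
    · simp only [Matrix.fromBlocks_apply₁₂, Sum.elim_inl, Pi.zero_apply, Matrix.zero_apply, h0v,
        zero_mul, Finset.sum_const_zero]
    · simp only [Matrix.fromBlocks_apply₂₂, Sum.elim_inr]
      rw [Finset.sum_eq_single s]
      · rw [Matrix.one_apply_eq, h1v, one_mul]
      · intro j _ hj
        rw [Matrix.one_apply_ne hj.symm, h0v, zero_mul]
      · simp
  · -- z ≠ 0
    intro h
    have h1 := congrFun h (σ (Sum.inr ⟨0, hg1⟩))
    simp only [Equiv.symm_apply_apply, Sum.elim_inr, Pi.zero_apply] at h1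
    have h2 : ωs ⟨0, hg1⟩ = 0 := hφ (by rw [h1, map_zero])
    exact ωs.ne_zero _ h2
  · intro x y
    simp only [heis_mul, map_add]
  · intro x
    rw [← map_pow, ← hcard, Nat.card_eq_fintype_card, FiniteField.pow_card]
  · -- surjectivity
    intro c hc
    by_contra hne
    push Not at hne
    classical
    have hq : 1 < p ^ g := Nat.one_lt_pow (by omega) hp.one_lt
    have hP : (Polynomial.X ^ (p ^ g) - Polynomial.X : Polynomial k) ≠ 0 :=
      FiniteField.X_pow_card_sub_X_ne_zero k hq
    have hroot : insert c (Finset.univ.image φ) ⊆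
        (Polynomial.X ^ (p ^ g) - Polynomial.X : Polynomial k).roots.toFinset := by
      intro y hy
      rw [Multiset.mem_toFinset, Polynomial.mem_roots hP, Polynomial.IsRoot.def,
        Polynomial.eval_sub, Polynomial.eval_pow, Polynomial.eval_X, sub_eq_zero]
      rw [Finset.mem_insert, Finset.mem_image] at hy
      rcases hy with rfl | ⟨a, -, rfl⟩
      · exact hc
      · rw [← map_pow, ← hcard, Nat.card_eq_fintype_card, FiniteField.pow_card]
    have h1 := Finset.card_le_card hroot
    rw [Finset.card_insert_of_notMem, Finset.card_image_of_injective _ hφ, Finset.card_univ,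
      ← Nat.card_eq_fintype_card, hcard] at h1
    · have h2 := (Multiset.toFinset_card_le _).trans
        (Polynomial.card_roots' (Polynomial.X ^ (p ^ g) - Polynomial.X : Polynomial k))
      rw [FiniteField.X_pow_card_sub_X_natDegree_eq k hq] at h2
      omega
    · rw [Finset.mem_image]
      rintro ⟨a, -, ha⟩
      exact hne ⟨a, 0, 0⟩ ha

end Pool.Agent.Helper21.DN
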